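import Mathlib

/-!
# The unique subset exchange relation is not symmetric

The matroid `M` has rank `4` on `{0, ..., 7}`; its nonbases are the `4`-subsets of `{0,4,5,6,7}`,
the sets `{1,5,6,7}`, `{2,5,6,7}`, `{3,5,6,7}` (so `{5,6,7}` is a circuit) and `{0,1,3,7}`.
From `({1,3,5,6}, {0,2,4,7})` the unique subset exchange of `{5,6}` with `{4,7}` leads to
`({1,3,4,7}, {0,2,5,6})`, and from there unique subset exchanges lead only to
`({1,3,4,7}, {0,2,5,6})` and `({0,2,5,6}, {1,3,4,7})`.

A subset of `{0, ..., 7}` is encoded by the number with the corresponding binary digits.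
-/

set_option autoImplicit false

namespace Pool.Agent.Results.MP_2d361f_co.NotSymmetric

open Set

/-- `E(X; A, B)`: the sets `Y ⊆ B` such that `(A \ X) ∪ Y` and `(B \ Y) ∪ X` are bases of `M`. -/
def Exch {α : Type} (M : Matroid α) (X A B : Set α) : Set (Set α) :=
  {Y | Y ⊆ B ∧ M.IsBase ((A \ X) ∪ Y) ∧ M.IsBase ((B \ Y) ∪ X)}

/-- `𝓑'` arises from the sequence `𝓑` by a unique subset exchange. -/
def UniqueExchange {α : Type} (M : Matroid α) {m : ℕ} (𝓑 𝓑' : Fin m → Set α) : Prop :=
  ∃ i j : Fin m, i < j ∧ ∃ X Y : Set α, X ⊆ 𝓑 i ∧ Exch M X (𝓑 i) (𝓑 j) = {Y} ∧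
    𝓑' = Function.update (Function.update 𝓑 i ((𝓑 i \ X) ∪ Y)) j ((𝓑 j \ Y) ∪ X)

/-- The relation `≃₃`: reachability by a finite chain of unique subset exchanges. -/
def Reach {α : Type} (M : Matroid α) {m : ℕ} : (Fin m → Set α) → (Fin m → Set α) → Prop :=
  Relation.ReflTransGen (UniqueExchange M)

/-! ### Encoding of sets -/

/-- the set encoded by `s` -/
def S (s : ℕ) : Set (Fin 8) := {i | s.testBit i = true}

/-- bounded quantifiers -/
def allN : ℕ → (ℕ → Bool) → Bool
  | 0, _ => true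
  | n + 1, f => f n && allN n f

def anyN : ℕ → (ℕ → Bool) → Bool
  | 0, _ => false
  | n + 1, f => f n || anyN n f

theorem allN_iff (n : ℕ) (f : ℕ → Bool) : allN n f = true ↔ ∀ i < n, f i = true := by
  induction n with
  | zero => simp [allN]
  | succ n ih =>
    simp only [allN, Bool.and_eq_true, ih]
    constructor
    · rintro ⟨h1, h2⟩ i hi
      rcases Nat.lt_succ_iff_lt_or_eq.1 hi with h | rfl
      · exact h2 i h
      · exact h1
    · intro h
      exact ⟨h n (Nat.lt_succ_self n), fun i hi => h i (Nat.lt_succ_of_lt hi)⟩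

theorem anyN_iff (n : ℕ) (f : ℕ → Bool) : anyN n f = true ↔ ∃ i < n, f i = true := by
  induction n with
  | zero => simp [anyN]
  | succ n ih =>
    simp only [anyN, Bool.or_eq_true, ih]
    constructor
    · rintro (h | ⟨i, hi, h⟩)
      · exact ⟨n, Nat.lt_succ_self n, h⟩
      · exact ⟨i, Nat.lt_succ_of_lt hi, h⟩
    · rintro ⟨i, hi, h⟩
      rcases Nat.lt_succ_iff_lt_or_eq.1 hi with h' | rfl
      · exact Or.inr ⟨i, h', h⟩
      · exact Or.inl h

theorem S_inj {s t : ℕ} (hs : s < 256) (ht : t < 256) (h : S s = S t) : s = t := by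
  apply Nat.eq_of_testBit_eq
  intro i
  by_cases hi : i < 8
  · have : ((⟨i, hi⟩ : Fin 8) ∈ S s) ↔ ((⟨i, hi⟩ : Fin 8) ∈ S t) := by rw [h]
    simp only [S, mem_ofPred_eq] at this
    exact Bool.eq_iff_iff.2 this
  · have h8 : 2 ^ 8 ≤ 2 ^ i := Nat.pow_le_pow_right (by norm_num) (not_lt.1 hi)
    rw [Nat.testBit_lt_two_pow (by omega), Nat.testBit_lt_two_pow (by omega)]

theorem exists_S (Z : Set (Fin 8)) : ∃ s < 256, Z = S s := by
  classical
  let f : Fin 8 → Bool := fun i => decide (i ∈ Z)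
  have hf : ∀ g : Fin 8 → Bool, ∃ s < 256, ∀ i : Fin 8, s.testBit i = g i := by
    intro g
    refine ⟨(∑ i : Fin 8, if g i then 2 ^ (i : ℕ) else 0), ?_, ?_⟩
    · calc (∑ i : Fin 8, if g i then 2 ^ (i : ℕ) else 0) ≤ ∑ i : Fin 8, 2 ^ (i : ℕ) :=
            Finset.sum_le_sum fun i _ => by split_ifs <;> simp
        _ < 256 := by decide
    · revert g
      decide +kernel
  obtain ⟨s, hs, h⟩ := hf f
  refine ⟨s, hs, ?_⟩
  ext i
  simp only [S, mem_ofPred_eq, h i, f, decide_eq_true_eq]

theorem S_union (s t : ℕ) : S s ∪ S t = S (s ||| t) := by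
  ext i
  simp [S, Nat.testBit_or]

theorem S_diff (s t : ℕ) : S s \ S t = S (s &&& (255 ^^^ t)) := by
  ext i
  have h : Nat.testBit 255 i = true := by revert i; decide
  simp [S, Nat.testBit_and, Nat.testBit_xor, h]

theorem S_subset {s t : ℕ} (hs : s < 256) (h : S s ⊆ S t) : s &&& (255 ^^^ t) = 0 := by
  have h1 : S (s &&& (255 ^^^ t)) = S 0 := by
    rw [← S_diff, sdiff_eq_empty.2 h]
    ext i
    simp [S]
  have h2 : s &&& (255 ^^^ t) < 256 := lt_of_le_of_lt Nat.and_le_left hs
  exact S_inj h2 (by norm_num) h1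

/-! ### The matroid -/

/-- the table of the bases -/
def tab : ℕ := 113575819937161326290808029346206604169195797310519930306087124992

theorem tab_lt {s : ℕ} (h : tab.testBit s = true) : s < 256 := by
  by_contra hcon
  have h1 : (2 : ℕ) ^ 256 ≤ 2 ^ s := Nat.pow_le_pow_right (by norm_num) (not_lt.1 hcon)
  have h2 : tab < 2 ^ 256 := by decide +kernel
  rw [Nat.testBit_lt_two_pow (lt_of_lt_of_le h2 h1)] at h
  exact absurd h (by decide)

/-- the bases -/
def IsB (B : Set (Fin 8)) : Prop := ∃ s : ℕ, tab.testBit s = true ∧ B = S s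

theorem isB_iff {s : ℕ} (hs : s < 256) : IsB (S s) ↔ tab.testBit s = true := by
  constructor
  · rintro ⟨t, ht, h⟩
    rw [S_inj hs (tab_lt ht) h]
    exact ht
  · intro h
    exact ⟨s, h, rfl⟩

def exchCheck : Bool :=
  allN 256 fun s => !tab.testBit s || allN 256 fun t => !tab.testBit t ||
    allN 8 fun a => !(s.testBit a && !t.testBit a) ||
      anyN 8 fun b => t.testBit b && (!s.testBit b && tab.testBit ((s ^^^ 2 ^ a) ^^^ 2 ^ b))

theorem exchCheck_true : exchCheck = true := by decide +kernel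

theorem bool_imp {a b : Bool} (h : (!a || b) = true) (ha : a = true) : b = true := by
  rw [ha] at h
  simpa using h

theorem exchange : Matroid.ExchangeProperty IsB := by
  rintro _ _ ⟨s, hs, rfl⟩ ⟨t, ht, rfl⟩ a ⟨has, hat⟩
  have h1 := bool_imp ((allN_iff _ _).1 exchCheck_true s (tab_lt hs)) hs
  have h2 := bool_imp ((allN_iff _ _).1 h1 t (tab_lt ht)) ht
  have hsa : s.testBit a = true := has
  have hta : t.testBit a = false := by
    have : ¬ t.testBit a = true := hat
    simpa using this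
  have h3 := bool_imp ((allN_iff _ _).1 h2 a a.2) (by rw [hsa, hta]; rfl)
  obtain ⟨b, hb, h4⟩ := (anyN_iff _ _).1 h3
  simp only [Bool.and_eq_true, Bool.not_eq_true'] at h4
  obtain ⟨h5, h6, h7⟩ := h4
  refine ⟨⟨b, hb⟩, ⟨h5, ?_⟩, _, h7, ?_⟩
  · show ¬ s.testBit b = true
    rw [h6]
    decide
  · ext i
    simp only [S, mem_insert_iff, mem_sdiff, mem_singleton_iff, mem_ofPred_eq, Nat.testBit_xor,
      Nat.testBit_two_pow]
    by_cases hib : i = ⟨b, hb⟩
    · subst hib
      have hab : (a : ℕ) ≠ b := by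
        rintro rfl
        rw [hsa] at h6
        exact absurd h6 (by decide)
      simp [h6, hab]
    · have hib' : b ≠ (i : ℕ) := fun h => hib (Fin.ext h.symm)
      by_cases hia : i = a
      · subst hia
        simp [hsa, hib, hib']
      · have hia' : (a : ℕ) ≠ i := fun h => hia (Fin.ext h.symm)
        simp [hib, hib', hia, hia']

/-- the matroid -/
def M : Matroid (Fin 8) :=
  Matroid.ofIsBaseOfFinite (E := univ) (toFinite _) IsB
    ⟨S 15, 15, by decide +kernel, rfl⟩ exchange (fun _ _ => subset_univ _)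

theorem M_isBase (s : ℕ) (hs : s < 256) : M.IsBase (S s) ↔ tab.testBit s = true :=
  isB_iff hs

/-! ### The exchanges -/

/-- `Y ∈ E(X; A, B)` in terms of the codes -/
def good (a b x y : ℕ) : Bool :=
  ((y &&& (255 ^^^ b)) == 0) && (tab.testBit ((a &&& (255 ^^^ x)) ||| y) &&
    tab.testBit ((b &&& (255 ^^^ y)) ||| x))

theorem mem_exch {a b x y : ℕ} (ha : a < 256) (hb : b < 256) (hx : x < 256) (hy : y < 256) :
    S y ∈ Exch M (S x) (S a) (S b) ↔ good a b x y = true := by
  have e1 : ∀ {u v w : ℕ}, u < 256 → w < 256 → (u &&& (255 ^^^ v)) ||| w < 256 := by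
    intro u v w hu hw
    have h1 : u &&& (255 ^^^ v) < 2 ^ 8 := lt_of_le_of_lt Nat.and_le_left hu
    exact Nat.or_lt_two_pow h1 hw
  have e2 : S y ⊆ S b ↔ y &&& (255 ^^^ b) = 0 := by
    constructor
    · exact S_subset hy
    · intro h
      rw [← sdiff_eq_empty, S_diff, h]
      ext i
      simp [S]
  simp only [Exch, mem_ofPred_eq, e2, S_diff, S_union, M_isBase _ (e1 ha hy),
    M_isBase _ (e1 hb hx), good, Bool.and_eq_true, beq_iff_eq]

theorem exch_eq {a b x : ℕ} (ha : a < 256) (hb : b < 256) (hx : x < 256) {Y : Set (Fin 8)}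
    (h : Exch M (S x) (S a) (S b) = {Y}) :
    ∃ y < 256, Y = S y ∧ good a b x y = true ∧ ∀ z < 256, good a b x z = true → z = y := by
  obtain ⟨y, hy, rfl⟩ := exists_S Y
  have h1 : S y ∈ Exch M (S x) (S a) (S b) := by rw [h]; rfl
  refine ⟨y, hy, rfl, (mem_exch ha hb hx hy).1 h1, fun z hz hg => ?_⟩
  have h2 := (mem_exch ha hb hx hz).2 hg
  rw [h] at h2
  exact S_inj hz hy h2

/-- From `(a, b)` only trivial exchanges are unique. -/
def trivCheck (a b : ℕ) : Bool :=
  allN 256 fun x => !((x &&& (255 ^^^ a)) == 0) || allN 256 fun y => !(good a b x y) ||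
    ((x == 0 && y == 0) || ((x == a && y == b) || anyN 256 fun z => good a b x z && !(z == y)))

theorem trivCheck1 : trivCheck 0x9a 0x65 = true := by decide +kernel

theorem trivCheck2 : trivCheck 0x65 0x9a = true := by decide +kernel

theorem step_triv {a b : ℕ} (ha : a < 256) (hb : b < 256) (h : trivCheck a b = true)
    {𝓑 𝓑' : Fin 2 → Set (Fin 8)} (h0 : 𝓑 0 = S a) (h1 : 𝓑 1 = S b)
    (hstep : UniqueExchange M 𝓑 𝓑') :
    (𝓑' 0 = S a ∧ 𝓑' 1 = S b) ∨ (𝓑' 0 = S b ∧ 𝓑' 1 = S a) := by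
  obtain ⟨i, j, hij, X, Y, hX, hE, rfl⟩ := hstep
  have hi : i = 0 := by omega
  have hj : j = 1 := by omega
  subst hi hj
  rw [h0] at hX
  rw [h0, h1] at hE
  obtain ⟨x, hx, rfl⟩ := exists_S X
  obtain ⟨y, hy, rfl, hg, huniq⟩ := exch_eq ha hb hx hE
  have c1 := bool_imp ((allN_iff _ _).1 h x hx) (by rw [S_subset hx hX]; rfl)
  have c2 := bool_imp ((allN_iff _ _).1 c1 y hy) hg
  simp only [Bool.or_eq_true, Bool.and_eq_true, beq_iff_eq, anyN_iff, Bool.not_eq_true',
    beq_eq_false_iff_ne] at c2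
  have hS0 : S 0 = ∅ := by ext i; simp [S]
  rcases c2 with ⟨rfl, rfl⟩ | ⟨rfl, rfl⟩ | ⟨z, hz, hz1, hz2⟩
  · left
    constructor
    · rw [Function.update_of_ne (by decide), Function.update_self, hS0, h0]
      simp
    · rw [Function.update_self, hS0, h1]
      simp
  · right
    constructor
    · rw [Function.update_of_ne (by decide), Function.update_self, h0]
      simp
    · rw [Function.update_self, h1]
      simp
  · exact absurd (huniq z hz hz1) hz2

/-- the first sequence -/
def seq1 : Fin 2 → Set (Fin 8) := ![S 0x6a, S 0x95]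

/-- the second sequence -/
def seq2 : Fin 2 → Set (Fin 8) := ![S 0x9a, S 0x65]

def uniqCheck : Bool :=
  good 0x6a 0x95 0x60 0x90 && allN 256 fun z => !(good 0x6a 0x95 0x60 z) || (z == 0x90)

theorem uniqCheck_true : uniqCheck = true := by decide +kernel

theorem forward : UniqueExchange M seq1 seq2 := by
  have hc := uniqCheck_true
  simp only [uniqCheck, Bool.and_eq_true] at hc
  refine ⟨0, 1, by decide, S 0x60, S 0x90, ?_, ?_, ?_⟩
  · show S 0x60 ⊆ S 0x6a
    rw [← sdiff_eq_empty, S_diff]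
    ext i
    simp [S]
  · show Exch M (S 0x60) (S 0x6a) (S 0x95) = {S 0x90}
    ext Z
    obtain ⟨z, hz, rfl⟩ := exists_S Z
    rw [mem_exch (by norm_num) (by norm_num) (by norm_num) hz, mem_singleton_iff]
    constructor
    · intro hg
      have := bool_imp ((allN_iff _ _).1 hc.2 z hz) hg
      rw [beq_iff_eq.1 this]
    · intro h
      rw [S_inj hz (by norm_num) h]
      exact hc.1
  · funext k
    fin_cases k
    · show S 0x9a = (S 0x6a \ S 0x60) ∪ S 0x90
      rw [S_diff, S_union]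
      rfl
    · show S 0x65 = (S 0x95 \ S 0x90) ∪ S 0x60
      rw [S_diff, S_union]
      rfl

theorem closed {𝓑 : Fin 2 → Set (Fin 8)} (h : Reach M seq2 𝓑) :
    (𝓑 0 = S 0x9a ∧ 𝓑 1 = S 0x65) ∨ (𝓑 0 = S 0x65 ∧ 𝓑 1 = S 0x9a) := by
  induction h with
  | refl => exact Or.inl ⟨rfl, rfl⟩
  | tail _ hstep ih =>
    rcases ih with ⟨h0, h1⟩ | ⟨h0, h1⟩
    · exact step_triv (by norm_num) (by norm_num) trivCheck1 h0 h1 hstep
    · exact (step_triv (by norm_num) (by norm_num) trivCheck2 h0 h1 hstep).symm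

/-- **Answer to Q1: no.**  There is a matroid `M` on `8` elements and there are sequences of two
bases of `M` such that the second is reachable from the first by unique subset exchanges (in fact
by a single one), but the first is not reachable from the second. -/
theorem result : ∃ (M : Matroid (Fin 8)) (𝓑 𝓑' : Fin 2 → Set (Fin 8)),
    (∀ i, M.IsBase (𝓑 i)) ∧ (∀ i, M.IsBase (𝓑' i)) ∧
    Reach M 𝓑 𝓑' ∧ ¬ Reach M 𝓑' 𝓑 := by
  refine ⟨M, seq1, seq2, ?_, ?_, Relation.ReflTransGen.single forward, ?_⟩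
  · intro i
    fin_cases i
    · exact (M_isBase 0x6a (by norm_num)).2 (by decide +kernel)
    · exact (M_isBase 0x95 (by norm_num)).2 (by decide +kernel)
  · intro i
    fin_cases i
    · exact (M_isBase 0x9a (by norm_num)).2 (by decide +kernel)
    · exact (M_isBase 0x65 (by norm_num)).2 (by decide +kernel)
  · intro h
    have e1 : seq1 0 = S 0x6a := rfl
    rcases closed h with ⟨h0, -⟩ | ⟨h0, -⟩
    · rw [e1] at h0
      exact absurd (S_inj (by norm_num) (by norm_num) h0) (by norm_num)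
    · rw [e1] at h0
      exact absurd (S_inj (by norm_num) (by norm_num) h0) (by norm_num)

end Pool.Agent.Results.MP_2d361f_co.NotSymmetric
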